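import Pool.Agent.Q97.EL.Sol

set_option autoImplicit false

/-!
# Non-uniqueness of ball-shaped elastic inclusions from one measurement

The definitions are in `Pool.Agent.Q97.EL.Lame`.
-/

namespace Pool.Agent.Results.MP_0643f8_an.EqualShearModuli

open Q97.EL MeasureTheory Metric

/-- Let `d = 2` or `d = 3`, let `Ω` be the unit ball, let `(l, m)` be the background Lame constants
and `(l', m)` with `l' ≠ l` the constants of the inclusion (this is an admissible choice of the four
constants).  There are a nonzero admissible boundary datum `g` and one displacement `u` that is a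
solution of the transmission problem for every ball `D` with closure in `Ω`; in particular two
distinct balls give the same boundary measurement. -/
theorem result (d : ℕ) (hd : d = 2 ∨ d = 3) (l m l' : ℝ) (hm : 0 < m) (_hl : 0 < d * l + 2 * m)
    (_hl' : 0 < l') (hne : l' ≠ l) :
    (l', m) ≠ (l, m) ∧ 0 ≤ (l - l') * (m - m) ∧
    (∃ (a₁ a₂ : E d) (r₁ r₂ : ℝ), IsInclusion a₁ r₁ ∧ IsInclusion a₂ r₂ ∧
      ball a₁ r₁ ≠ ball a₂ r₂) ∧
    ∃ g u : E d → Fin d → ℝ, Admissible g ∧ NonZero g ∧
      ∀ (a : E d) (r : ℝ), IsInclusion a r → IsSolution l m l' m a r g u := by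
  refine ⟨fun h => hne (congrArg Prod.fst h), by simp, ?_⟩
  obtain ⟨n, rfl⟩ : ∃ n, d = n + 2 := by
    rcases hd with rfl | rfl
    · exact ⟨0, rfl⟩
    · exact ⟨1, rfl⟩
  have hs : ∑ i : Fin (n + 2), ((if i = 0 then (1 : ℝ) else 0) - (if i = 1 then 1 else 0)) = 0 := by
    rw [Finset.sum_sub_distrib, Finset.sum_ite_eq', Finset.sum_ite_eq']
    simp
  refine ⟨⟨0, 0, 1 / 2, 1 / 4, ⟨by norm_num, closedBall_subset_ball (by norm_num)⟩,
    ⟨by norm_num, closedBall_subset_ball (by norm_num)⟩, ?_⟩,
    datum _ m, Lam _, admissible_datum _ m, datum_ne _ hm (i := 0) (by simp),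
    fun a r _ => isSolution_Lam _ hs l m l' a r⟩
  intro h
  have h1 : ((1 / 3 : ℝ) • ev 0 : E (n + 2)) ∈ ball (0 : E (n + 2)) (1 / 2) := by
    rw [mem_ball_zero_iff, norm_smul, norm_ev, Real.norm_eq_abs, abs_of_pos (by norm_num)]
    norm_num
  rw [h, mem_ball_zero_iff, norm_smul, norm_ev, Real.norm_eq_abs, abs_of_pos (by norm_num)] at h1
  norm_num at h1

end Pool.Agent.Results.MP_0643f8_an.EqualShearModuli
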